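import Mathlib
import Pool.Agent.Results.MP_8cfc4a_al.RaagSuperexpDehn
import Pool.Agent.Y567.GraphProportion

/-!
# Almost all right-angled Artin groups have subgroups with super-exponential Dehn function

The finitely presented subgroup of the starting theorem is a subgroup of the right-angled Artin
group of every graph that contains the graph `Γ₀` of that theorem as an induced subgraph, hence of
the right-angled Artin groups of almost all finite graphs.
-/

set_option autoImplicit false

open Filter Topology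

namespace Pool.Agent.Results.MP_8cfc4a_al.AlmostAllGraphs

open Pool.Agent.Results.MP_8cfc4a_al.RaagSuperexpDehn

/-- The right-angled Artin group of `Γ` has a finitely presented subgroup `H` whose Dehn function
is super-exponential, and at least `2 ^ (n (n + 1) / 2)` at `32 n + 4` for all `n`. -/
def HasSuperexponentialSubgroup {k : ℕ} (Γ : SimpleGraph (Fin k)) : Prop :=
  ∃ H : Subgroup (RAAG Γ), ∃ m : ℕ, ∃ rels : Finset (FreeGroup (Fin m)),
    Nonempty (PresentedGroup (↑rels : Set (FreeGroup (Fin m))) ≃* ↥H) ∧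
    SuperExponential (dehn rels) ∧
    ∀ n : ℕ, 2 ^ (n * (n + 1) / 2) ≤ dehn rels (32 * n + 4)

theorem gen_comm {k : ℕ} {Γ : SimpleGraph (Fin k)} {a b : Fin k} (h : Γ.Adj a b) :
    (PresentedGroup.of a : RAAG Γ) * PresentedGroup.of b =
      PresentedGroup.of b * PresentedGroup.of a := by
  have h1 := PresentedGroup.one_of_mem
    (rels := {r : FreeGroup (Fin k) | ∃ a : Fin k, ∃ b : Fin k, Γ.Adj a b ∧
    r = FreeGroup.of a * FreeGroup.of b * (FreeGroup.of a)⁻¹ * (FreeGroup.of b)⁻¹})
    (x := FreeGroup.of a * FreeGroup.of b * (FreeGroup.of a)⁻¹ * (FreeGroup.of b)⁻¹)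
    ⟨a, b, h, rfl⟩
  rw [map_mul, map_mul, map_mul, map_inv, map_inv, mul_inv_eq_one, mul_inv_eq_iff_eq_mul] at h1
  exact h1

theorem lift_rel {k : ℕ} {Γ : SimpleGraph (Fin k)} {K : Type} [Group K] (f : Fin k → K)
    (h : ∀ a b, Γ.Adj a b → f a * f b = f b * f a) :
    ∀ r ∈ {r : FreeGroup (Fin k) | ∃ a : Fin k, ∃ b : Fin k, Γ.Adj a b ∧
      r = FreeGroup.of a * FreeGroup.of b * (FreeGroup.of a)⁻¹ * (FreeGroup.of b)⁻¹},
      FreeGroup.lift f r = 1 := by
  rintro r ⟨a, b, hab, rfl⟩
  rw [map_mul, map_mul, map_mul, map_inv, map_inv, FreeGroup.lift_apply_of,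
    FreeGroup.lift_apply_of, mul_inv_eq_one, mul_inv_eq_iff_eq_mul]
  exact h a b hab

/-- The right-angled Artin group of an induced subgraph is a subgroup. -/
theorem raag_induced {k l : ℕ} {Γ : SimpleGraph (Fin k)} {Δ : SimpleGraph (Fin l)} (f : Γ ↪g Δ) :
    ∃ φ : RAAG Γ →* RAAG Δ, Function.Injective φ := by
  classical
  let φ : RAAG Γ →* RAAG Δ := PresentedGroup.toGroup
    (lift_rel (fun v => (PresentedGroup.of (f v) : RAAG Δ))
      (fun u v h => gen_comm (f.map_adj_iff.2 h)))
  let back : Fin l → RAAG Γ := fun w => if h : ∃ v, f v = w then PresentedGroup.of h.choose else 1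
  have hback : ∀ v, back (f v) = PresentedGroup.of v := by
    intro v
    have h : ∃ u, f u = f v := ⟨v, rfl⟩
    show (if h : ∃ u, f u = f v then (PresentedGroup.of h.choose : RAAG Γ) else 1) = _
    rw [dif_pos h, f.injective h.choose_spec]
  have hcomm : ∀ u v, Δ.Adj u v → back u * back v = back v * back u := by
    intro u v h
    by_cases hu : ∃ u', f u' = u
    · by_cases hv : ∃ v', f v' = v
      · obtain ⟨u', rfl⟩ := hu
        obtain ⟨v', rfl⟩ := hv
        rw [hback, hback]
        exact gen_comm (f.map_adj_iff.1 h)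
      · have : back v = 1 := dif_neg hv
        rw [this, mul_one, one_mul]
    · have : back u = 1 := dif_neg hu
      rw [this, mul_one, one_mul]
  let ψ : RAAG Δ →* RAAG Γ := PresentedGroup.toGroup (lift_rel back hcomm)
  have hid : ψ.comp φ = MonoidHom.id (RAAG Γ) := by
    apply PresentedGroup.ext
    intro v
    show ψ (φ (PresentedGroup.of v)) = PresentedGroup.of v
    have h1 : φ (PresentedGroup.of v) = PresentedGroup.of (f v) := PresentedGroup.toGroup.of _
    have h2 : ψ (PresentedGroup.of (f v)) = back (f v) := PresentedGroup.toGroup.of _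
    rw [h1, h2, hback]
  refine ⟨φ, fun x y hxy => ?_⟩
  have h1 : ψ.comp φ x = ψ.comp φ y := congrArg ψ hxy
  rw [hid] at h1
  exact h1

theorem mono {k l : ℕ} {Γ : SimpleGraph (Fin k)} {Δ : SimpleGraph (Fin l)} (f : Γ ↪g Δ)
    (h : HasSuperexponentialSubgroup Γ) : HasSuperexponentialSubgroup Δ := by
  obtain ⟨H, m, rels, ⟨e⟩, h1, h2⟩ := h
  obtain ⟨φ, hφ⟩ := raag_induced f
  exact ⟨H.map φ, m, rels, ⟨e.trans (H.equivMapOfInjective φ hφ)⟩, h1, h2⟩

/-- (1) There is a finite graph `Γ₀` such that the right-angled Artin group of every finite graph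
that contains `Γ₀` as an induced subgraph has a finitely presented subgroup with super-exponential
Dehn function. (2) The proportion of the graphs on `n` labelled vertices whose right-angled Artin
group has such a subgroup tends to `1` as `n → ∞`. -/
theorem result :
    (∃ (k : ℕ) (Γ₀ : SimpleGraph (Fin k)), ∀ (n : ℕ) (Γ : SimpleGraph (Fin n)),
      Nonempty (Γ₀ ↪g Γ) → HasSuperexponentialSubgroup Γ) ∧
    Tendsto (fun n : ℕ =>
      (Nat.card {Γ : SimpleGraph (Fin n) // HasSuperexponentialSubgroup Γ} : ℝ) /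
        Nat.card (SimpleGraph (Fin n))) atTop (𝓝 1) := by
  obtain ⟨k, Γ₀, hΓ₀⟩ := RaagSuperexpDehn.result
  have h0 : HasSuperexponentialSubgroup Γ₀ := hΓ₀
  have h1 : ∀ (n : ℕ) (Γ : SimpleGraph (Fin n)), Nonempty (Γ₀ ↪g Γ) →
      HasSuperexponentialSubgroup Γ := fun n Γ ⟨f⟩ => mono f h0
  refine ⟨⟨k, Γ₀, h1⟩, ?_⟩
  rcases Nat.eq_zero_or_pos k with hk | hk
  · -- the empty graph is an induced subgraph of every graph
    subst hk
    have h2 : ∀ (n : ℕ) (Γ : SimpleGraph (Fin n)), HasSuperexponentialSubgroup Γ := by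
      intro n Γ
      exact h1 n Γ ⟨⟨⟨Fin.elim0, fun a => Fin.elim0 a⟩, fun {a} => Fin.elim0 a⟩⟩
    exact Pool.Agent.Y567.GraphProportion.proportion_one (W := Fin 1) ⊥
      (fun n Γ => HasSuperexponentialSubgroup Γ) (fun n Γ _ => h2 n Γ)
  · have : Nonempty (Fin k) := ⟨⟨0, hk⟩⟩
    exact Pool.Agent.Y567.GraphProportion.proportion_one Γ₀
      (fun n Γ => HasSuperexponentialSubgroup Γ) h1

end Pool.Agent.Results.MP_8cfc4a_al.AlmostAllGraphs
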